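import Pool.Agent.Helper76_LAG.Stmt

/-!
# LAG, module DEDB: a configuration gives a bad event
-/

set_option autoImplicit false

namespace Pool.Agent.LAG.DedB

open SimpleGraph

variable {V : Type} {L : ℕ}

/-- The cyclic sequence of the configuration. -/
def Z (r a : ℕ) (p w v : ℕ → V) (t : ℕ) : V :=
  if t < r then p t else if t ≤ r - 1 + a then w (t - (r - 1)) else v (t - (r - 1 + a))

lemma alv_symm {E : Env V} {ω : V → St L} {u v : V} (h : Alv E ω u v) : Alv E ω v u :=
  ⟨h.1.symm, h.2.2, h.2.1⟩

lemma cyc_le {n : ℕ} (f : ℕ → V) (t : ℕ) (ht : t ≤ n) :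
    cyc (fun i : Fin (n + 1) => f i.val) t = f t := by
  unfold cyc
  simp only [Fin.ofNat]
  rw [Nat.mod_eq_of_lt (by omega)]

lemma cyc_top {n : ℕ} (f : ℕ → V) (hf : f (n + 1) = f 0) (t : ℕ) (ht : t ≤ n + 1) :
    cyc (fun i : Fin (n + 1) => f i.val) t = f t := by
  rcases Nat.lt_or_ge t (n + 1) with h | h
  · exact cyc_le f t (by omega)
  · have : t = n + 1 := by omega
    subst this
    unfold cyc
    simp only [Fin.ofNat, Nat.mod_self]
    exact hf.symm

lemma cyc_pred {n : ℕ} (f : ℕ → V) (t : ℕ) (ht : t ≤ n) (h0 : 0 < t) :
    cyc (fun i : Fin (n + 1) => f i.val) (t + n) = f (t - 1) := by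
  unfold cyc
  simp only [Fin.ofNat]
  have : (t + n) % (n + 1) = t - 1 := by
    have e : t + n = (t - 1) + (n + 1) := by omega
    rw [e, Nat.add_mod_right, Nat.mod_eq_of_lt (by omega)]
  rw [this]

lemma cyc_zero {n : ℕ} (f : ℕ → V) :
    cyc (fun i : Fin (n + 1) => f i.val) (0 + n) = f n := by
  rw [Nat.zero_add]
  exact cyc_le f n le_rfl

theorem dedb (hS : SegaStmt) : DedBStmt := by
  intro V L T ℓ E ω hT c r a b p w v hc
  obtain ⟨hA, hN, hsw, hcs, hcp, hsk6⟩ := hS V L T E ω hT
  obtain ⟨hr, hrl, ha, hb, h3, hp, hw, hv, hw0, hv0, hvb, hpp, hpw, hpv, hwv, hsk⟩ := hc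
  have hTa := hT w a hw
  have hTb := hT v b hv
  set y := r - 1 + a with hy
  set n := r + a + b - 2 with hn
  set f := Z r a p w v with hf
  have Zp : ∀ t, t < r → f t = p t := by
    intro t ht
    simp [hf, Z, ht]
  have Zw : ∀ t, r - 1 ≤ t → t ≤ y → f t = w (t - (r - 1)) := by
    intro t h1 h2
    by_cases h : t < r
    · rw [Zp t h]
      have : t = r - 1 := by omega
      subst this
      rw [Nat.sub_self, hw0]
    · simp only [hf, Z, if_neg h]
      rw [if_pos (by omega)]
  have Zv : ∀ t, y ≤ t → f t = v (t - y) := by
    intro t h1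
    rcases Nat.lt_or_ge y t with h | h
    · simp only [hf, Z]
      rw [if_neg (by omega), if_neg (by omega)]
    · have : t = y := by omega
      subst this
      rw [Zw _ (by omega) le_rfl, Nat.sub_self, hv0]
      congr 1
      omega
  have htop : f (n + 1) = f 0 := by
    rw [Zv _ (by omega), Zp 0 (by omega), ← hvb]
    congr 1
    omega
  -- alive edges
  have alv : ∀ t, t ≤ n → Alv E ω (f t) (f (t + 1)) := by
    intro t ht
    rcases Nat.lt_or_ge (t + 1) r with h | h
    · rw [Zp t (by omega), Zp (t + 1) h]
      exact (hp t h).1
    rcases Nat.lt_or_ge t y with h' | h'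
    · rw [Zw t (by omega) (by omega), Zw (t + 1) (by omega) (by omega)]
      have := hw.1 (t - (r - 1)) (by omega)
      rwa [show t + 1 - (r - 1) = t - (r - 1) + 1 by omega]
    · rw [Zv t h', Zv (t + 1) (by omega)]
      have := hv.1 (t - y) (by omega)
      rwa [show t + 1 - y = t - y + 1 by omega]
  -- the edges
  have efg : ∀ t, t ≤ r → edg (fun i : Fin (n + 1) => f i.val) t = cfe r b p w v t := by
    intro t ht
    unfold edg cfe
    rcases Nat.eq_zero_or_pos t with h0 | h0
    · subst h0
      rw [if_pos rfl, cyc_zero, cyc_le f 0 (by omega), Zp 0 (by omega), hvb, Zv n (by omega)]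
      congr 2
      omega
    · rw [if_neg (by omega), cyc_pred f t (by omega) h0, cyc_le f t (by omega)]
      by_cases h : t = r
      · subst h
        rw [if_pos rfl, Zw (t - 1) le_rfl (by omega), Zw t (by omega) (by omega), Nat.sub_self,
          show t - (t - 1) = 1 by omega]
      · rw [if_neg h, Zp _ (by omega), Zp _ (by omega)]
  have ealv : ∀ t, t ≤ r → Alv E ω (cfe r b p w v t).1 (cfe r b p w v t).2 := by
    intro t ht
    unfold cfe
    split_ifs with h1 h2
    · have := hv.1 (b - 1) (by omega)
      rwa [show b - 1 + 1 = b by omega] at this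
    · exact hw.1 0 (by omega)
    · have := (hp (t - 1) (by omega)).1
      rwa [show t - 1 + 1 = t by omega] at this
  refine ⟨n, fun i => f i.val, y,
    (xor (col E ω T (cfe r b p w v 0)) c, xor (col E ω T (cfe r b p w v r)) c), by omega,
    hr, hrl, by omega, by omega, ?_, ?_, ?_, ?_, c, ?_⟩
  · refine ⟨by omega, ?_, ?_, ?_⟩
    · intro t ht
      rw [cyc_le f t (by omega), cyc_top f htop (t + 1) (by omega)]
      exact (alv t (by omega)).1
    · rw [cyc_top f htop (n + 1) le_rfl, cyc_le f 0 (by omega), htop]
    · have key : ∀ s t, s < t → t < n + 1 → f s ≠ f t := by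
        intro s t hst ht
        rcases Nat.lt_or_ge t r with h1 | h1
        · rw [Zp s (by omega), Zp t h1]
          intro e
          have := hpp s t (by omega) h1 e
          omega
        rcases Nat.lt_or_ge y t with h2 | h2
        · -- t in region V
          rw [Zv t (by omega)]
          rcases Nat.lt_or_ge s r with h3' | h3'
          · rw [Zp s h3']
            exact hpv s (t - y) h3' (by omega) (by omega)
          rcases Nat.lt_or_ge y s with h4 | h4
          · rw [Zv s (by omega)]
            intro e
            have := hTb.2 (s - y) (t - y) (by omega) (by omega) e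
            omega
          · rw [Zw s (by omega) h4]
            exact hwv (s - (r - 1)) (t - y) (by omega) (by omega) (by omega) (by omega)
        · -- t in region W
          rw [Zw t (by omega) h2]
          rcases Nat.lt_or_ge s r with h3' | h3'
          · rw [Zp s h3']
            exact hpw s (t - (r - 1)) h3' (by omega) (by omega)
          · rw [Zw s (by omega) (by omega)]
            intro e
            have := hTa.2 (s - (r - 1)) (t - (r - 1)) (by omega) (by omega) e
            omega
      intro s t hs ht e
      rw [cyc_le f s (by omega), cyc_le f t (by omega)] at e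
      rcases Nat.lt_trichotomy s t with h | h | h
      · exact absurd e (key s t h ht)
      · exact h
      · exact absurd e.symm (key t s h hs)
  · -- partners
    intro t ht
    rw [cyc_le f t ht, cyc_top f htop (t + 1) (by omega)]
    constructor
    · intro hP hbad
      rcases hbad with h | h
      · -- t < r
        have e1 := efg t (by omega)
        have e2 := efg (t + 1) (by omega)
        have a1 := ealv t (by omega)
        have a2 := ealv (t + 1) (by omega)
        rw [← e1] at a1
        rw [← e2] at a2
        unfold edg at a1 a2 e1 e2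
        simp only at a1 a2
        rw [cyc_le f t ht] at a1 e1
        rw [cyc_pred f (t + 1) (by omega) (by omega), cyc_top f htop (t + 1) (by omega)] at a2 e2
        rw [show t + 1 - 1 = t by omega] at a2 e2
        have := (hN _ _ _ a1 a2 hP).2
        rw [e1, e2] at this
        have := hsk t (t + 1) (by omega) (by omega) this
        omega
      · -- t = y
        rw [cyc_pred f t ht (by omega)] at hP
        have a1 := alv (t - 1) (by omega)
        have a2 := alv t (by omega)
        rw [show t - 1 + 1 = t by omega] at a1
        have h1 := (hN _ _ _ a1 a2 hP).2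
        have e1 : (f (t - 1), f t) = (w (a - 1), w (a - 1 + 1)) := by
          rw [Zw (t - 1) (by omega) (by omega), Zw t (by omega) (by omega)]
          congr 2 <;> omega
        have e2 : (f t, f (t + 1)) = (v 0, v (0 + 1)) := by
          rw [Zv t (by omega), Zv (t + 1) (by omega)]
          congr 2 <;> omega
        rw [e1, e2] at h1
        have h2 := hsk6 w a hw (a - 1) 0 (by omega) (by omega)
        have h4 := hsk6 v b hv 0 (b - 1) (by omega) (by omega)
        have h5 : skey E ω T (cfe r b p w v r) = skey E ω T (cfe r b p w v 0) := by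
          have c1 : cfe r b p w v r = (w 0, w (0 + 1)) := by
            unfold cfe
            rw [if_neg (by omega), if_pos rfl]
          have c2 : cfe r b p w v 0 = (v (b - 1), v (b - 1 + 1)) := by
            unfold cfe
            rw [if_pos rfl, show b - 1 + 1 = b by omega]
          rw [c1, c2, ← h2, h1, h4]
        have := hsk r 0 le_rfl (by omega) h5
        omega
    · intro hgood
      have h1 : r ≤ t := by
        by_contra h
        exact hgood (Or.inl (by omega))
      have h2 : t ≠ y := fun h => hgood (Or.inr h)
      rw [cyc_pred f t ht (by omega)]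
      rcases Nat.lt_or_ge t y with h' | h'
      · rw [Zw t (by omega) (by omega), Zw (t + 1) (by omega) (by omega),
          Zw (t - 1) (by omega) (by omega)]
        have := hw.2 (t - (r - 1)) (by omega) (by omega)
        rwa [show t + 1 - (r - 1) = t - (r - 1) + 1 by omega,
          show t - 1 - (r - 1) = t - (r - 1) - 1 by omega]
      · rw [Zv t h', Zv (t + 1) (by omega), Zv (t - 1) (by omega)]
        have := hv.2 (t - y) (by omega) (by omega)
        rwa [show t + 1 - y = t - y + 1 by omega, show t - 1 - y = t - y - 1 by omega]
  · intro t ht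
    rw [efg t ht]
    exact ⟨hA _ _ (ealv t ht), hA _ _ (alv_symm (ealv t ht))⟩
  · intro s t hs ht e
    rw [efg s hs, efg t ht] at e
    exact hsk s t hs ht e
  · intro t ht
    rw [efg t ht]
    unfold pat
    split_ifs with h1 h2
    · subst h1
      simp only
      generalize col E ω T (cfe r b p w v 0) = u
      cases c <;> cases u <;> rfl
    · subst h2
      simp only
      generalize col E ω T (cfe t b p w v t) = u
      cases c <;> cases u <;> rfl
    · have : col E ω T (cfe r b p w v t) = c := by
        unfold cfe
        rw [if_neg h1, if_neg h2]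
        have := (hp (t - 1) (by omega)).2.1
        rwa [show t - 1 + 1 = t by omega] at this
      rw [this]
      cases c <;> rfl

end Pool.Agent.LAG.DedB

namespace Pool.Agent.LAG

/-- Module DEDB. -/
theorem dedb (hS : SegaStmt) : DedBStmt := DedB.dedb hS

end Pool.Agent.LAG
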